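import Pool.Agent.Lib_helper53.HamBase.Paths

/-!
# Menger's theorem for finite digraphs

The proof of Göring: induction on the number of arcs.
-/

namespace Pool.Agent.Lib53.HamBase

open List

variable {V : Type*}

/-- `l` is a walk of the digraph `A` from `X` to `Y`. -/
structure Wlk (A : V → V → Prop) (X Y : V → Prop) (l : List V) : Prop where
  chain : l.IsChain A
  head : ∃ a, l.head? = some a ∧ X a
  last : ∃ b, l.getLast? = some b ∧ Y b

/-- `S` meets every walk from `X` to `Y`. -/
def Separ (A : V → V → Prop) (X Y : V → Prop) (S : Finset V) : Prop :=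
  ∀ l, Wlk A X Y l → ∃ v ∈ l, v ∈ S

/-- `k` disjoint paths from `X` to `Y`. -/
def Linked (A : V → V → Prop) (X Y : V → Prop) (k : ℕ) : Prop :=
  ∃ P : Fin k → List V, (∀ i, ∃ a b, Pth A a b (P i) ∧ X a ∧ Y b) ∧
    ∀ i j, i ≠ j → (P i).Disjoint (P j)

lemma Pth.wlk {A : V → V → Prop} {X Y : V → Prop} {a b : V} {l : List V} (h : Pth A a b l)
    (ha : X a) (hb : Y b) : Wlk A X Y l := ⟨h.chain, ⟨a, h.head, ha⟩, ⟨b, h.last, hb⟩⟩

/-- Splitting a list at a member. -/
lemma head?_append_of {l₁ l₂ : List V} {t : V} : (l₁ ++ t :: l₂).head? = (l₁ ++ [t]).head? := by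
  cases l₁ <;> rfl

lemma getLast?_append_of {l₁ l₂ : List V} {t : V} :
    (l₁ ++ t :: l₂).getLast? = (t :: l₂).getLast? := by
  rw [List.getLast?_append]
  cases h : (t :: l₂).getLast? with
  | none => simp at h
  | some x => rfl

/-- The first member of a list with a property. -/
lemma exists_first (p : V → Prop) (l : List V) (h : ∃ v ∈ l, p v) :
    ∃ l₁ t l₂, l = l₁ ++ t :: l₂ ∧ p t ∧ ∀ v ∈ l₁, ¬ p v := by
  induction l with
  | nil => simp at h
  | cons x l ih =>
    by_cases hx : p x
    · exact ⟨[], x, l, rfl, hx, by simp⟩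
    · have h' : ∃ v ∈ l, p v := by
        obtain ⟨v, hv, hpv⟩ := h
        rcases List.mem_cons.1 hv with rfl | hv
        · exact absurd hpv hx
        · exact ⟨v, hv, hpv⟩
      obtain ⟨l₁, t, l₂, he, ht, hl⟩ := ih h'
      refine ⟨x :: l₁, t, l₂, by rw [he]; rfl, ht, ?_⟩
      intro v hv
      rcases List.mem_cons.1 hv with rfl | hv
      · exact hx
      · exact hl v hv

/-- The last member of a list with a property. -/
lemma exists_last (p : V → Prop) (l : List V) (h : ∃ v ∈ l, p v) :
    ∃ l₁ t l₂, l = l₁ ++ t :: l₂ ∧ p t ∧ ∀ v ∈ l₂, ¬ p v := by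
  induction l with
  | nil => simp at h
  | cons x l ih =>
    by_cases h' : ∃ v ∈ l, p v
    · obtain ⟨l₁, t, l₂, he, ht, hl⟩ := ih h'
      exact ⟨x :: l₁, t, l₂, by rw [he]; rfl, ht, hl⟩
    · push Not at h'
      refine ⟨[], x, l, rfl, ?_, h'⟩
      obtain ⟨v, hv, hpv⟩ := h
      rcases List.mem_cons.1 hv with rfl | hv
      · exact hpv
      · exact absurd hpv (h' v hv)

/-- A chain all of whose arcs are different from `(x, y)`. -/
lemma isChain_erase {A B : V → V → Prop} {l : List V} (hl : l.IsChain A) (x y : V)
    (hAB : ∀ u v, A u v → ¬ (u = x ∧ v = y) → B u v)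
    (h : ∀ l₁ l₂, l ≠ l₁ ++ x :: y :: l₂) : l.IsChain B := by
  induction l with
  | nil => simp
  | cons a l ih =>
    rcases l with _ | ⟨b, l⟩
    · simp
    · rw [List.isChain_cons_cons] at hl ⊢
      refine ⟨hAB a b hl.1 ?_, ih hl.2 fun l₁ l₂ he => h (a :: l₁) l₂ (by rw [he]; rfl)⟩
      rintro ⟨rfl, rfl⟩
      exact h [] l rfl

theorem menger_aux [DecidableEq V] (n : ℕ) : ∀ (E : Finset (V × V)), E.card = n →
    ∀ (X Y : V → Prop) (k : ℕ),
    (∀ S : Finset V, S.card < k → ¬ Separ (fun u v => (u, v) ∈ E) X Y S) →
    Linked (fun u v => (u, v) ∈ E) X Y k := by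
  induction n with
  | zero =>
    intro E hE X Y k hk
    rw [Finset.card_eq_zero] at hE
    subst hE
    -- disjoint one-vertex paths
    have key : ∀ j ≤ k, ∃ T : Finset V, T.card = j ∧ ∀ t ∈ T, X t ∧ Y t := by
      intro j
      induction j with
      | zero => exact fun _ => ⟨∅, rfl, by simp⟩
      | succ j ih =>
        intro hj
        obtain ⟨T, hT, hXY⟩ := ih (by omega)
        have := hk T (by omega)
        unfold Separ at this
        push Not at this
        obtain ⟨l, hl, hlT⟩ := this
        obtain ⟨a, ha, hXa⟩ := hl.head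
        obtain ⟨b, hb, hYb⟩ := hl.last
        have hab : l = [a] := by
          rcases l with _ | ⟨c, _ | ⟨d, l⟩⟩
          · simp at ha
          · simpa using ha
          · have := hl.chain
            rw [List.isChain_cons_cons] at this
            simp at this
        subst hab
        obtain rfl : a = b := by simpa using hb
        refine ⟨insert a T, ?_, ?_⟩
        · rw [Finset.card_insert_of_notMem (hlT a (by simp)), hT]
        · intro t ht
          rcases Finset.mem_insert.1 ht with rfl | ht
          · exact ⟨hXa, hYb⟩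
          · exact hXY t ht
    obtain ⟨T, hT, hXY⟩ := key k le_rfl
    let e := (T.equivFinOfCardEq hT).symm
    refine ⟨fun i => [(e i : V)], fun i => ⟨e i, e i, Pth.single _ _, (hXY _ (e i).2).1,
      (hXY _ (e i).2).2⟩, fun i j hij => ?_⟩
    intro v hv hv'
    rw [List.mem_singleton] at hv hv'
    exact hij (e.injective (Subtype.ext (hv.symm.trans hv')))
  | succ n ih =>
    intro E hE X Y k hk
    obtain ⟨⟨x, y⟩, hxy⟩ : E.Nonempty := Finset.card_pos.1 (by omega)
    set E' := E.erase (x, y) with hE'
    have hcard : E'.card = n := by rw [hE', Finset.card_erase_of_mem hxy, hE]; rfl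
    have hsub : ∀ u v, (u, v) ∈ E' → (u, v) ∈ E := fun u v h => Finset.mem_of_mem_erase h
    have hback : ∀ u v, (u, v) ∈ E → ¬ (u = x ∧ v = y) → (u, v) ∈ E' := by
      intro u v h h'
      refine Finset.mem_erase.2 ⟨fun he => h' ?_, h⟩
      simpa using he
    by_cases hall : ∀ S : Finset V, S.card < k → ¬ Separ (fun u v => (u, v) ∈ E') X Y S
    · obtain ⟨P, hP, hd⟩ := ih E' hcard X Y k hall
      refine ⟨P, fun i => ?_, hd⟩
      obtain ⟨a, b, hp, ha, hb⟩ := hP i
      exact ⟨a, b, ⟨hp.chain.imp fun u v h => hsub u v h, hp.nodup, hp.head, hp.last⟩, ha, hb⟩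
    push Not at hall
    obtain ⟨S, hSk, hS⟩ := hall
    -- `S ∪ {x}` and `S ∪ {y}` separate
    have hsx : Separ (fun u v => (u, v) ∈ E) X Y (insert x S) := by
      intro l hl
      by_contra hcon
      push Not at hcon
      have : Wlk (fun u v => (u, v) ∈ E') X Y l := by
        refine ⟨isChain_erase hl.chain x y hback ?_, hl.head, hl.last⟩
        rintro l₁ l₂ rfl
        exact hcon x (by simp) (Finset.mem_insert_self _ _)
      obtain ⟨v, hv, hvS⟩ := hS l this
      exact hcon v hv (Finset.mem_insert_of_mem hvS)
    have hsy : Separ (fun u v => (u, v) ∈ E) X Y (insert y S) := by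
      intro l hl
      by_contra hcon
      push Not at hcon
      have : Wlk (fun u v => (u, v) ∈ E') X Y l := by
        refine ⟨isChain_erase hl.chain x y hback ?_, hl.head, hl.last⟩
        rintro l₁ l₂ rfl
        exact hcon y (by simp) (Finset.mem_insert_self _ _)
      obtain ⟨v, hv, hvS⟩ := hS l this
      exact hcon v hv (Finset.mem_insert_of_mem hvS)
    have hxk : k ≤ (insert x S).card := by
      by_contra h
      exact hk _ (by omega) hsx
    have hyk : k ≤ (insert y S).card := by
      by_contra h
      exact hk _ (by omega) hsy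
    have hxS : x ∉ S := fun h => by
      rw [Finset.insert_eq_of_mem h] at hxk
      omega
    have hyS : y ∉ S := fun h => by
      rw [Finset.insert_eq_of_mem h] at hyk
      omega
    rw [Finset.card_insert_of_notMem hxS] at hxk
    have hSc : S.card + 1 = k := by omega
    -- the two linkages
    have hL : Linked (fun u v => (u, v) ∈ E') X (· ∈ insert x S) k := by
      refine ih E' hcard _ _ k fun R hR hsep => hk R hR fun l hl => ?_
      obtain ⟨l₁, t, l₂, he, ht, h1⟩ := exists_first (· ∈ insert x S) l (hsx l hl)
      have hw : Wlk (fun u v => (u, v) ∈ E') X (· ∈ insert x S) (l₁ ++ [t]) := by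
        refine ⟨?_, ?_, t, by simp, ht⟩
        · have hc : (l₁ ++ [t]).IsChain (fun u v => (u, v) ∈ E) := by
            have := hl.chain
            rw [he, show l₁ ++ t :: l₂ = (l₁ ++ [t]) ++ l₂ by simp] at this
            exact this.left_of_append
          refine isChain_erase hc x y hback ?_
          intro m₁ m₂ hm
          -- `x` is in `l₁`
          have hx1 : x ∈ l₁ := by
            have h2 : l₁ = (m₁ ++ x :: y :: m₂).dropLast := by rw [← hm]; simp
            rw [h2, List.dropLast_append_of_ne_nil (by simp)]
            simp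
          exact h1 x hx1 (Finset.mem_insert_self _ _)
        · obtain ⟨a, ha, hXa⟩ := hl.head
          exact ⟨a, by rw [← head?_append_of (l₂ := l₂), ← he]; exact ha, hXa⟩
      obtain ⟨v, hv, hvR⟩ := hsep _ hw
      refine ⟨v, ?_, hvR⟩
      rw [he]
      rcases List.mem_append.1 hv with h | h
      · exact List.mem_append_left _ h
      · rw [List.mem_singleton.1 h]
        simp
    have hR : Linked (fun u v => (u, v) ∈ E') (· ∈ insert y S) Y k := by
      refine ih E' hcard _ _ k fun R hR hsep => hk R hR fun l hl => ?_
      obtain ⟨l₁, t, l₂, he, ht, h1⟩ := exists_last (· ∈ insert y S) l (hsy l hl)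
      have hw : Wlk (fun u v => (u, v) ∈ E') (· ∈ insert y S) Y (t :: l₂) := by
        refine ⟨?_, ⟨t, by simp, ht⟩, ?_⟩
        · have hc : (t :: l₂).IsChain (fun u v => (u, v) ∈ E) := by
            have := hl.chain
            rw [he] at this
            exact this.right_of_append
          refine isChain_erase hc x y hback ?_
          intro m₁ m₂ hm
          have hy1 : y ∈ l₂ := by
            have h2 : l₂ = (m₁ ++ x :: y :: m₂).tail := by rw [← hm]; simp
            rw [h2]
            cases m₁ <;> simp
          exact h1 y hy1 (Finset.mem_insert_self _ _)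
        · obtain ⟨b, hb, hYb⟩ := hl.last
          exact ⟨b, by rw [← getLast?_append_of (l₁ := l₁), ← he]; exact hb, hYb⟩
      obtain ⟨v, hv, hvR⟩ := hsep _ hw
      refine ⟨v, ?_, hvR⟩
      rw [he]
      exact List.mem_append_right _ hv
    obtain ⟨P, hP, hPd⟩ := hL
    obtain ⟨Q, hQ, hQd⟩ := hR
    choose pa pb hPp hPa hPb using hP
    choose qa qb hQp hQa hQb using hQ
    -- the ends of the `P i` are exactly the vertices of `S ∪ {x}`
    have hpinj : Function.Injective pb := by
      intro i j hij
      by_contra hne
      exact hPd i j hne (hPp i).mem_last (hij ▸ (hPp j).mem_last)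
    have hqinj : Function.Injective qa := by
      intro i j hij
      by_contra hne
      exact hQd i j hne (hQp i).mem_head (hij ▸ (hQp j).mem_head)
    have hpsurj : ∀ t ∈ insert x S, ∃ i, pb i = t := by
      intro t ht
      have h1 : Finset.univ.image pb ⊆ insert x S := by
        intro v hv
        obtain ⟨i, -, rfl⟩ := Finset.mem_image.1 hv
        exact hPb i
      have h2 : Finset.univ.image pb = insert x S := by
        refine Finset.eq_of_subset_of_card_le h1 ?_
        rw [Finset.card_image_of_injective _ hpinj, Finset.card_insert_of_notMem hxS]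
        simp [hSc]
      rw [← h2] at ht
      obtain ⟨i, -, hi⟩ := Finset.mem_image.1 ht
      exact ⟨i, hi⟩
    have hqsurj : ∀ t ∈ insert y S, ∃ i, qa i = t := by
      intro t ht
      have h1 : Finset.univ.image qa ⊆ insert y S := by
        intro v hv
        obtain ⟨i, -, rfl⟩ := Finset.mem_image.1 hv
        exact hQa i
      have h2 : Finset.univ.image qa = insert y S := by
        refine Finset.eq_of_subset_of_card_le h1 ?_
        rw [Finset.card_image_of_injective _ hqinj, Finset.card_insert_of_notMem hyS]
        simp [hSc]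
      rw [← h2] at ht
      obtain ⟨i, -, hi⟩ := Finset.mem_image.1 ht
      exact ⟨i, hi⟩
    -- members of `S ∪ {x}` on `P i`
    have hPT : ∀ i, ∀ t ∈ P i, t ∈ insert x S → t = pb i := by
      intro i t ht htS
      obtain ⟨j, rfl⟩ := hpsurj t htS
      by_contra hne
      have hij : i ≠ j := fun h => hne (by rw [h])
      exact hPd i j hij ht (hPp j).mem_last
    have hQT : ∀ i, ∀ t ∈ Q i, t ∈ insert y S → t = qa i := by
      intro i t ht htS
      obtain ⟨j, rfl⟩ := hqsurj t htS
      by_contra hne
      have hij : i ≠ j := fun h => hne (by rw [h])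
      exact hQd i j hij ht (hQp j).mem_head
    -- common vertices of `P i` and `Q j`
    have hPQ : ∀ i j v, v ∈ P i → v ∈ Q j → v ∈ S ∧ v = pb i ∧ v = qa j := by
      intro i j v hvP hvQ
      have hvS : v ∈ S := by
        by_contra hvS
        obtain ⟨l₁, l₂, h1⟩ := List.append_of_mem hvP
        obtain ⟨m₁, m₂, h2⟩ := List.append_of_mem hvQ
        have c1 : (l₁ ++ [v]).IsChain (fun u v => (u, v) ∈ E') := by
          have := (hPp i).chain
          rw [h1, show l₁ ++ v :: l₂ = (l₁ ++ [v]) ++ l₂ by simp] at this
          exact this.left_of_append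
        have c2 : (v :: m₂).IsChain (fun u v => (u, v) ∈ E') := by
          have := (hQp j).chain
          rw [h2] at this
          exact this.right_of_append
        have c3 : (l₁ ++ v :: m₂).IsChain (fun u v => (u, v) ∈ E') := by
          rw [List.isChain_append] at c1 ⊢
          refine ⟨c1.1, c2, fun p hp q hq => ?_⟩
          have : q = v := by simpa using hq.symm
          subst this
          exact c1.2.2 p hp q (by simp)
        have hw : Wlk (fun u v => (u, v) ∈ E') X Y (l₁ ++ v :: m₂) := by
          refine ⟨c3, ⟨pa i, ?_, hPa i⟩, ⟨qb j, ?_, hQb j⟩⟩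
          · rw [head?_append_of, ← head?_append_of (l₂ := l₂), ← h1]
            exact (hPp i).head
          · rw [getLast?_append_of, ← getLast?_append_of (l₁ := m₁), ← h2]
            exact (hQp j).last
        obtain ⟨w, hw, hwS⟩ := hS _ hw
        rcases List.mem_append.1 hw with h | h
        · -- `w` in `l₁`
          have hwP : w ∈ P i := by rw [h1]; exact List.mem_append_left _ h
          have hwe := hPT i w hwP (Finset.mem_insert_of_mem hwS)
          -- the last vertex of `P i` is in `l₂` or is `v`
          have hl : pb i ∈ v :: l₂ := by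
            have := (hPp i).last
            rw [h1, getLast?_append_of] at this
            exact List.mem_of_getLast? this
          have hn := (hPp i).nodup
          rw [h1, List.nodup_append] at hn
          exact hn.2.2 w h w (by rw [hwe] at *; exact hl) rfl
        · rcases List.mem_cons.1 h with rfl | h
          · exact hvS hwS
          · have hwQ : w ∈ Q j := by rw [h2]; simp [h]
            have hwe := hQT j w hwQ (Finset.mem_insert_of_mem hwS)
            have hl : qa j ∈ m₁ ++ [v] := by
              have := (hQp j).head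
              rw [h2, head?_append_of] at this
              exact List.mem_of_head? this
            have hn := (hQp j).nodup
            rw [h2, show m₁ ++ v :: m₂ = (m₁ ++ [v]) ++ m₂ by simp, List.nodup_append] at hn
            exact hn.2.2 w (by rw [hwe] at *; exact hl) w h rfl
      exact ⟨hvS, hPT i v hvP (Finset.mem_insert_of_mem hvS),
        hQT j v hvQ (Finset.mem_insert_of_mem hvS)⟩
    -- the partner
    have hpart : ∀ i, ∃ j, (pb i = x ∧ qa j = y) ∨ (pb i ∈ S ∧ qa j = pb i) := by
      intro i
      rcases Finset.mem_insert.1 (hPb i) with h | h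
      · obtain ⟨j, hj⟩ := hqsurj y (Finset.mem_insert_self _ _)
        exact ⟨j, Or.inl ⟨h, hj⟩⟩
      · obtain ⟨j, hj⟩ := hqsurj (pb i) (Finset.mem_insert_of_mem h)
        exact ⟨j, Or.inr ⟨h, hj⟩⟩
    choose σ hσ using hpart
    have hσinj : Function.Injective σ := by
      intro i j hij
      apply hpinj
      rcases hσ i with ⟨h1, h2⟩ | ⟨h1, h2⟩ <;> rcases hσ j with ⟨h3, h4⟩ | ⟨h3, h4⟩
      · rw [h1, h3]
      · exfalso
        rw [hij, h4] at h2
        exact hyS (h2 ▸ h3)
      · exfalso
        rw [hij, h4] at h2
        exact hyS (h2 ▸ h1)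
      · rw [← h2, ← h4, hij]
    -- the combined paths
    have hcomb : ∀ i, ∃ l, Pth (fun u v => (u, v) ∈ E) (pa i) (qb (σ i)) l ∧
        ∀ v ∈ l, v ∈ P i ∨ v ∈ Q (σ i) := by
      intro i
      have hp : Pth (fun u v => (u, v) ∈ E) (pa i) (pb i) (P i) :=
        ⟨(hPp i).chain.imp fun u v h => hsub u v h, (hPp i).nodup, (hPp i).head, (hPp i).last⟩
      have hq : Pth (fun u v => (u, v) ∈ E) (qa (σ i)) (qb (σ i)) (Q (σ i)) :=
        ⟨(hQp _).chain.imp fun u v h => hsub u v h, (hQp _).nodup, (hQp _).head, (hQp _).last⟩
      rcases hσ i with ⟨h1, h2⟩ | ⟨h1, h2⟩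
      · refine ⟨P i ++ Q (σ i), hp.append hq (by rw [h1, h2]; exact hxy) ?_,
          fun v hv => List.mem_append.1 hv⟩
        intro v hv hv'
        obtain ⟨h3, h4, -⟩ := hPQ i (σ i) v hv hv'
        rw [h4, h1] at h3
        exact hxS h3
      · rcases hQl : Q (σ i) with _ | ⟨c, _ | ⟨d, m⟩⟩
        · exact absurd hQl hq.ne_nil
        · have e1 : c = qa (σ i) := by
            have := hq.head
            rw [hQl] at this
            simpa using this
          have e2 : c = qb (σ i) := by
            have := hq.last
            rw [hQl] at this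
            simpa using this
          refine ⟨P i, ?_, fun v hv => Or.inl hv⟩
          rw [← e2, e1, h2]
          exact hp
        · have e1 : c = qa (σ i) := by
            have := hq.head
            rw [hQl] at this
            simpa using this
          have hc := hq.chain
          rw [hQl, List.isChain_cons_cons] at hc
          have hn := hq.nodup
          rw [hQl, List.nodup_cons] at hn
          have hm : Pth (fun u v => (u, v) ∈ E) d (qb (σ i)) (d :: m) := by
            refine ⟨hc.2, hn.2, rfl, ?_⟩
            have := hq.last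
            rw [hQl, List.getLast?_cons_cons] at this
            exact this
          refine ⟨P i ++ d :: m, hp.append hm (by rw [← h2, ← e1]; exact hc.1) ?_, ?_⟩
          · intro v hv hv'
            obtain ⟨-, -, h5⟩ := hPQ i (σ i) v hv (by rw [hQl]; exact List.mem_cons_of_mem _ hv')
            rw [h5, ← e1] at hv'
            exact hn.1 hv'
          · intro v hv
            rcases List.mem_append.1 hv with h | h
            · exact Or.inl h
            · exact Or.inr (List.mem_cons_of_mem _ h)
    choose R hRp hRm using hcomb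
    refine ⟨R, fun i => ⟨pa i, qb (σ i), hRp i, hPa i, hQb _⟩, fun i j hij v hv hv' => ?_⟩
    have key : ∀ i j, i ≠ j → v ∈ P i → v ∈ Q (σ j) → False := by
      intro i j hij h1 h2
      obtain ⟨h3, h4, h5⟩ := hPQ i (σ j) v h1 h2
      rcases hσ j with ⟨h6, h7⟩ | ⟨h6, h7⟩
      · rw [h5, h7] at h3
        exact hyS h3
      · exact hij (hpinj (by rw [← h4, h5, h7]))
    rcases hRm i v hv with h1 | h1 <;> rcases hRm j v hv' with h2 | h2
    · exact hPd i j hij h1 h2
    · exact key i j hij h1 h2
    · exact key j i hij.symm h2 h1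
    · exact hQd _ _ (fun h => hij (hσinj h)) h1 h2

/-- **Menger's theorem**: if no set of less than `k` vertices meets all the walks from `X` to
`Y`, then there are `k` disjoint paths from `X` to `Y`. The digraph is finite: its arcs join
vertices of a finite set. -/
theorem menger (A : V → V → Prop) (W : Finset V) (hW : ∀ u v, A u v → u ∈ W ∧ v ∈ W)
    (X Y : V → Prop) (k : ℕ) (h : ∀ S : Finset V, S.card < k → ¬ Separ A X Y S) :
    Linked A X Y k := by
  classical
  have hA : (fun u v => (u, v) ∈ (W ×ˢ W).filter fun p => A p.1 p.2) = A := by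
    funext u v
    simp only [Finset.mem_filter, Finset.mem_product, eq_iff_iff]
    exact ⟨fun h => h.2, fun h => ⟨hW u v h, h⟩⟩
  have := menger_aux _ ((W ×ˢ W).filter fun p => A p.1 p.2) rfl X Y k
  rw [hA] at this
  exact this h

end Pool.Agent.Lib53.HamBase
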