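import Mathlib

/-!
# Paths in semicomplete digraphs: merging and insertion
-/

namespace Pool.Agent.Lib53.HamBase

open List

variable {V : Type*} {A : V → V → Prop}

/-- The list `l` is (the list of the vertices of) a path of the digraph `A` from `a` to `b`. -/
structure Pth (A : V → V → Prop) (a b : V) (l : List V) : Prop where
  chain : l.IsChain A
  nodup : l.Nodup
  head : l.head? = some a
  last : l.getLast? = some b

lemma Pth.ne_nil {a b : V} {l : List V} (h : Pth A a b l) : l ≠ [] := by
  rintro rfl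
  simpa using h.head

lemma Pth.mem_head {a b : V} {l : List V} (h : Pth A a b l) : a ∈ l :=
  List.mem_of_head? h.head

lemma Pth.mem_last {a b : V} {l : List V} (h : Pth A a b l) : b ∈ l :=
  List.mem_of_getLast? h.last

lemma Pth.single (A : V → V → Prop) (a : V) : Pth A a a [a] :=
  ⟨by simp, by simp, by simp, by simp⟩

/-- Concatenation of two paths. -/
lemma Pth.append {a b c d : V} {P Q : List V} (hP : Pth A a b P) (hQ : Pth A c d Q)
    (h : A b c) (hd : P.Disjoint Q) : Pth A a d (P ++ Q) := by
  refine ⟨?_, ?_, ?_, ?_⟩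
  · refine List.isChain_append.2 ⟨hP.chain, hQ.chain, ?_⟩
    intro x hx y hy
    rw [hP.last] at hx
    rw [hQ.head] at hy
    obtain rfl : b = x := by simpa using hx
    obtain rfl : c = y := by simpa using hy
    exact h
  · exact List.nodup_append.2 ⟨hP.nodup, hQ.nodup, fun x hx y hy hxy => hd hx (hxy ▸ hy)⟩
  · rw [List.head?_append, hP.head]; rfl
  · rw [List.getLast?_append, hQ.last]; rfl

lemma Pth.cons {a b u : V} {P : List V} (hP : Pth A a b P) (h : A u a) (hu : u ∉ P) :
    Pth A u b (u :: P) := by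
  have := (Pth.single A u).append hP h (by simpa using hu)
  simpa using this

lemma Pth.concat {a b u : V} {P : List V} (hP : Pth A a b P) (h : A b u) (hu : u ∉ P) :
    Pth A a u (P ++ [u]) :=
  hP.append (Pth.single A u) h (by simpa using hu)

/-- Cutting a path at a place where a property is lost. -/
lemma Pth.cut {a b : V} {l : List V} (h : Pth A a b l) (p : V → Prop) (ha : p a) (hb : ¬ p b) :
    ∃ l₁ l₂ w v, l = l₁ ++ l₂ ∧ Pth A a w l₁ ∧ Pth A v b l₂ ∧ p w ∧ ¬ p v ∧ A w v := by
  induction l generalizing a with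
  | nil => exact absurd rfl h.ne_nil
  | cons x l ih =>
    obtain rfl : x = a := by simpa using h.head
    rcases l with _ | ⟨y, l⟩
    · obtain rfl : x = b := by simpa using h.last
      exact absurd ha hb
    · have hxy : A x y := by
        have := h.chain
        rw [List.isChain_cons_cons] at this
        exact this.1
      have hl : Pth A y b (y :: l) := by
        refine ⟨?_, ?_, rfl, ?_⟩
        · have := h.chain
          rw [List.isChain_cons_cons] at this
          exact this.2
        · exact (List.nodup_cons.1 h.nodup).2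
        · have := h.last
          rwa [List.getLast?_cons_cons] at this
      by_cases hy : p y
      · obtain ⟨l₁, l₂, w, v, he, h1, h2, hw, hv, hwv⟩ := ih hl hy
        refine ⟨x :: l₁, l₂, w, v, by rw [he]; rfl, ?_, h2, hw, hv, hwv⟩
        refine h1.cons hxy fun hx => ?_
        have : x ∈ y :: l := by rw [he]; exact List.mem_append_left _ hx
        exact (List.nodup_cons.1 h.nodup).1 this
      · exact ⟨[x], y :: l, x, y, rfl, Pth.single A x, hl, ha, hy, hxy⟩

lemma merge_aux : ∀ (n : ℕ) (P Q : List V), P.length + Q.length = n → P ≠ [] → Q ≠ [] →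
    P.IsChain A → Q.IsChain A → (∀ u ∈ P, ∀ v ∈ Q, A u v ∨ A v u) →
    ∃ R, R.IsChain A ∧ R ~ P ++ Q ∧ (R.head? = P.head? ∨ R.head? = Q.head?) ∧
      (R.getLast? = P.getLast? ∨ R.getLast? = Q.getLast?) := by
  intro n
  induction n with
  | zero =>
    intro P Q h hP
    exact absurd (List.length_eq_zero_iff.1 (by omega)) hP
  | succ n ih =>
    -- the case in which the first vertex of `P` dominates the first vertex of `Q`
    have key : ∀ (p q : V) (P Q : List V), (p :: P).length + (q :: Q).length = n + 1 →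
        (p :: P).IsChain A → (q :: Q).IsChain A →
        (∀ u ∈ p :: P, ∀ v ∈ q :: Q, A u v ∨ A v u) → A p q →
        ∃ R, R.IsChain A ∧ R ~ (p :: P) ++ (q :: Q) ∧
          (R.head? = (p :: P).head? ∨ R.head? = (q :: Q).head?) ∧
          (R.getLast? = (p :: P).getLast? ∨ R.getLast? = (q :: Q).getLast?) := by
      intro p q P Q hn hP hQ hsc hpq
      rcases P with _ | ⟨p', P⟩
      · refine ⟨p :: q :: Q, ?_, by simp, Or.inl rfl, Or.inr ?_⟩
        · exact List.isChain_cons_cons.2 ⟨hpq, hQ⟩
        · rw [List.getLast?_cons_cons]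
      · rw [List.isChain_cons_cons] at hP
        obtain ⟨R, h1, h2, h3, h4⟩ := ih (p' :: P) (q :: Q) (by simp at hn ⊢; omega) (by simp)
          (by simp) hP.2 hQ fun u hu v hv => hsc u (List.mem_cons_of_mem _ hu) v hv
        have hR : R ≠ [] := by
          rintro rfl
          simpa using h2.length_eq
        obtain ⟨r, R, rfl⟩ := List.exists_cons_of_ne_nil hR
        refine ⟨p :: r :: R, ?_, ?_, Or.inl rfl, ?_⟩
        · refine List.isChain_cons_cons.2 ⟨?_, h1⟩
          rcases h3 with h3 | h3
          · obtain rfl : r = p' := by simpa using h3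
            exact hP.1
          · obtain rfl : r = q := by simpa using h3
            exact hpq
        · exact h2.cons p
        · rw [List.getLast?_cons_cons, List.getLast?_cons_cons]
          exact h4
    intro P Q hn hP hQ hcP hcQ hsc
    obtain ⟨p, P, rfl⟩ := List.exists_cons_of_ne_nil hP
    obtain ⟨q, Q, rfl⟩ := List.exists_cons_of_ne_nil hQ
    rcases hsc p (by simp) q (by simp) with h | h
    · exact key p q P Q hn hcP hcQ hsc h
    · obtain ⟨R, h1, h2, h3, h4⟩ := key q p Q P (by rw [← hn]; ring) hcQ hcP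
        (fun u hu v hv => (hsc v hv u hu).symm) h
      exact ⟨R, h1, h2.trans List.perm_append_comm, h3.symm, h4.symm⟩

/-- Two disjoint paths can be merged. -/
lemma Pth.merge {a b c d : V} {P Q : List V} (hP : Pth A a b P) (hQ : Pth A c d Q)
    (hd : P.Disjoint Q) (hsc : ∀ u ∈ P, ∀ v ∈ Q, A u v ∨ A v u) :
    ∃ R e f, Pth A e f R ∧ (e = a ∨ e = c) ∧ (f = b ∨ f = d) ∧ R ~ P ++ Q := by
  obtain ⟨R, h1, h2, h3, h4⟩ := merge_aux _ P Q rfl hP.ne_nil hQ.ne_nil hP.chain hQ.chain hsc
  have hn : R.Nodup := h2.symm.nodup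
    (List.nodup_append.2 ⟨hP.nodup, hQ.nodup, fun x hx y hy hxy => hd hx (hxy ▸ hy)⟩)
  rw [hP.head, hQ.head] at h3
  rw [hP.last, hQ.last] at h4
  rcases h3 with h3 | h3 <;> rcases h4 with h4 | h4 <;>
    exact ⟨R, _, _, ⟨h1, hn, h3, h4⟩, by simp, by simp, h2⟩

lemma ins_a (u : V) (l : List V) (hl : l.IsChain A) (hsc : ∀ w ∈ l, A w u ∨ A u w)
    (hex : ∃ v ∈ l, A v u) : (∃ b, l.getLast? = some b ∧ A b u) ∨
      ∃ l', l'.IsChain A ∧ l' ~ u :: l ∧ l'.head? = l.head? ∧ l'.getLast? = l.getLast? := by
  induction l with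
  | nil => simp at hex
  | cons v l ih =>
    rcases l with _ | ⟨w, l⟩
    · simp at hex
      exact Or.inl ⟨v, by simp, hex⟩
    · rw [List.isChain_cons_cons] at hl
      by_cases h : ∃ x ∈ w :: l, A x u
      · rcases ih hl.2 (fun x hx => hsc x (List.mem_cons_of_mem _ hx)) h with
          ⟨b, h1, h2⟩ | ⟨l', h1, h2, h3, h4⟩
        · exact Or.inl ⟨b, by rw [List.getLast?_cons_cons]; exact h1, h2⟩
        · right
          have hne : l' ≠ [] := by
            rintro rfl
            simp at h3
          obtain ⟨r, l', rfl⟩ := List.exists_cons_of_ne_nil hne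
          obtain rfl : r = w := by simpa using h3
          refine ⟨v :: r :: l', List.isChain_cons_cons.2 ⟨hl.1, h1⟩, ?_, rfl, ?_⟩
          · exact (h2.cons v).trans (List.Perm.swap _ _ _)
          · rw [List.getLast?_cons_cons, List.getLast?_cons_cons]
            exact h4
      · push Not at h
        have hvu : A v u := by
          obtain ⟨x, hx, hxu⟩ := hex
          rcases List.mem_cons.1 hx with rfl | hx
          · exact hxu
          · exact absurd hxu (h x hx)
        have huw : A u w := (hsc w (by simp)).resolve_left (h w (by simp))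
        right
        refine ⟨v :: u :: w :: l, ?_, List.Perm.swap _ _ _, rfl, ?_⟩
        · exact List.isChain_cons_cons.2 ⟨hvu, List.isChain_cons_cons.2 ⟨huw, hl.2⟩⟩
        · simp

lemma ins_b (u : V) (l : List V) (hl : l.IsChain A) (hsc : ∀ w ∈ l, A w u ∨ A u w)
    (hex : ∃ v ∈ l, A u v) : (∃ a, l.head? = some a ∧ A u a) ∨
      ∃ l', l'.IsChain A ∧ l' ~ u :: l ∧ l'.head? = l.head? ∧ l'.getLast? = l.getLast? := by
  induction l with
  | nil => simp at hex
  | cons v l ih =>
    by_cases huv : A u v
    · exact Or.inl ⟨v, rfl, huv⟩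
    have hvu : A v u := (hsc v (by simp)).resolve_right huv
    rcases l with _ | ⟨w, l⟩
    · simp at hex
      exact absurd hex huv
    · rw [List.isChain_cons_cons] at hl
      have h : ∃ x ∈ w :: l, A u x := by
        obtain ⟨x, hx, hxu⟩ := hex
        rcases List.mem_cons.1 hx with rfl | hx
        · exact absurd hxu huv
        · exact ⟨x, hx, hxu⟩
      right
      rcases ih hl.2 (fun x hx => hsc x (List.mem_cons_of_mem _ hx)) h with
          ⟨a, h1, h2⟩ | ⟨l', h1, h2, h3, h4⟩
      · obtain rfl : w = a := by simpa using h1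
        refine ⟨v :: u :: w :: l, ?_, List.Perm.swap _ _ _, rfl, by simp⟩
        exact List.isChain_cons_cons.2 ⟨hvu, List.isChain_cons_cons.2 ⟨h2, hl.2⟩⟩
      · have hne : l' ≠ [] := by
          rintro rfl
          simp at h3
        obtain ⟨r, l', rfl⟩ := List.exists_cons_of_ne_nil hne
        obtain rfl : r = w := by simpa using h3
        refine ⟨v :: r :: l', List.isChain_cons_cons.2 ⟨hl.1, h1⟩, ?_, rfl, ?_⟩
        · exact (h2.cons v).trans (List.Perm.swap _ _ _)
        · rw [List.getLast?_cons_cons, List.getLast?_cons_cons]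
          exact h4

/-- Insertion of a vertex dominated by some vertex of a path, unless it is dominated by the
last one. -/
lemma Pth.ins_a {a b u : V} {l : List V} (h : Pth A a b l) (hu : u ∉ l)
    (hsc : ∀ w ∈ l, A w u ∨ A u w) (hex : ∃ v ∈ l, A v u) :
    A b u ∨ ∃ l', Pth A a b l' ∧ l' ~ u :: l := by
  rcases HamBase.ins_a u l h.chain hsc hex with ⟨b', h1, h2⟩ | ⟨l', h1, h2, h3, h4⟩
  · obtain rfl : b = b' := by simpa using h.last.symm.trans h1
    exact Or.inl h2
  · refine Or.inr ⟨l', ⟨h1, ?_, h3.trans h.head, h4.trans h.last⟩, h2⟩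
    exact h2.symm.nodup (List.nodup_cons.2 ⟨hu, h.nodup⟩)

lemma Pth.ins_b {a b u : V} {l : List V} (h : Pth A a b l) (hu : u ∉ l)
    (hsc : ∀ w ∈ l, A w u ∨ A u w) (hex : ∃ v ∈ l, A u v) :
    A u a ∨ ∃ l', Pth A a b l' ∧ l' ~ u :: l := by
  rcases HamBase.ins_b u l h.chain hsc hex with ⟨b', h1, h2⟩ | ⟨l', h1, h2, h3, h4⟩
  · obtain rfl : a = b' := by simpa using h.head.symm.trans h1
    exact Or.inl h2
  · refine Or.inr ⟨l', ⟨h1, ?_, h3.trans h.head, h4.trans h.last⟩, h2⟩
    exact h2.symm.nodup (List.nodup_cons.2 ⟨hu, h.nodup⟩)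

end Pool.Agent.Lib53.HamBase
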