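import Pool.Agent.Lib_helper53.HamBase.Paths

/-!
# Three disjoint paths suffice

Let `A` be a semicomplete digraph on a finite set `S`, and let `X`, `Y` be sets of vertices, such
that every vertex can be reached from `X` and reaches `Y`. If there are three disjoint paths from
`X` to `Y`, then there is a hamiltonian path from `X` to `Y`.
-/

namespace Pool.Agent.Lib53.HamBase

open List

variable {V : Type*} {A : V → V → Prop}

/-- Every pair of distinct vertices of `S` is joined by an arc. -/
def Semi (A : V → V → Prop) (S : Finset V) : Prop :=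
  ∀ u ∈ S, ∀ v ∈ S, u ≠ v → A u v ∨ A v u

/-- Every vertex of `S` can be reached from `X` inside `S`. -/
def ReachFrom (A : V → V → Prop) (S : Finset V) (X : V → Prop) : Prop :=
  ∀ C ⊆ S, C.Nonempty → (∃ c ∈ C, X c) ∨ ∃ u ∈ S, u ∉ C ∧ ∃ c ∈ C, A u c

/-- Every vertex of `S` reaches `Y` inside `S`. -/
def ReachTo (A : V → V → Prop) (S : Finset V) (Y : V → Prop) : Prop :=
  ∀ C ⊆ S, C.Nonempty → (∃ c ∈ C, Y c) ∨ ∃ c ∈ C, ∃ u ∈ S, u ∉ C ∧ A c u

/-- `l` is a path inside `S` from `X` to `Y`. -/
def IsXY (A : V → V → Prop) (S : Finset V) (X Y : V → Prop) (l : List V) : Prop :=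
  (∃ a b, Pth A a b l ∧ X a ∧ Y b) ∧ ∀ v ∈ l, v ∈ S

/-- There is a hamiltonian path of `S` from `X` to `Y`. -/
def Ham (A : V → V → Prop) (S : Finset V) (X Y : V → Prop) : Prop :=
  ∃ a b l, Pth A a b l ∧ X a ∧ Y b ∧ ∀ v, v ∈ l ↔ v ∈ S

lemma Semi.mono {S T : Finset V} (h : Semi A S) (hT : T ⊆ S) : Semi A T :=
  fun u hu v hv => h u (hT hu) v (hT hv)

lemma Semi.arc {S : Finset V} (h : Semi A S) {u v : V} (hu : u ∈ S) (hv : v ∈ S) (hne : u ≠ v)
    (hA : ¬ A u v) : A v u := (h u hu v hv hne).resolve_left hA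

/-- The step of the partition lemma: a path from `X` to `Y` that misses a vertex can be
made longer, if every vertex is in `X` or in `Y`. -/
lemma partition_step {U : Finset V} (hsc : Semi A U) {X Y : V → Prop}
    (hXY : ∀ u ∈ U, X u ∨ Y u) (hX : ReachFrom A U X) (hY : ReachTo A U Y) {l : List V}
    (hl : IsXY A U X Y l) (hz : ∃ z ∈ U, z ∉ l) :
    ∃ l', IsXY A U X Y l' ∧ l.length < l'.length := by
  classical
  by_contra hcon
  push Not at hcon
  obtain ⟨⟨a, b, hp, ha, hb⟩, hlU⟩ := hl
  have hs : ∀ z ∈ U, z ∉ l → ∀ w ∈ l, A w z ∨ A z w := fun z hz hzl w hw =>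
    hsc w (hlU w hw) z hz (fun h => hzl (h ▸ hw))
  -- a perm of `z :: l` is not a path
  have hins : ∀ z ∈ U, z ∉ l → ∀ l', Pth A a b l' → ¬ l' ~ z :: l := by
    intro z hz hzl l' h1 h2
    have := hcon l' ⟨⟨a, b, h1, ha, hb⟩, fun v hv => ?_⟩
    · rw [h2.length_eq] at this
      simp at this
    · rcases List.mem_cons.1 (h2.mem_iff.1 hv) with rfl | h
      · exact hz
      · exact hlU v h
  have hXz : ∀ z ∈ U, z ∉ l → X z → ∀ v ∈ l, ¬ A z v := by
    intro z hz hzl hXz v hv hzv
    rcases hp.ins_b hzl (hs z hz hzl) ⟨v, hv, hzv⟩ with h | ⟨l', h1, h2⟩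
    · have := hcon (z :: l) ⟨⟨z, b, hp.cons h hzl, hXz, hb⟩, fun v hv => ?_⟩
      · simp at this
      · rcases List.mem_cons.1 hv with rfl | h
        · exact hz
        · exact hlU v h
    · exact hins z hz hzl l' h1 h2
  have hYz : ∀ z ∈ U, z ∉ l → Y z → ∀ v ∈ l, ¬ A v z := by
    intro z hz hzl hYz v hv hzv
    rcases hp.ins_a hzl (hs z hz hzl) ⟨v, hv, hzv⟩ with h | ⟨l', h1, h2⟩
    · have := hcon (l ++ [z]) ⟨⟨a, z, hp.concat h hzl, ha, hYz⟩, fun v hv => ?_⟩
      · simp at this
      · rcases List.mem_append.1 hv with h | h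
        · exact hlU v h
        · rw [List.mem_singleton.1 h]
          exact hz
    · exact hins z hz hzl l' h1 h2
  have hboth : ∀ z ∈ U, z ∉ l → X z → Y z → False := by
    intro z hz hzl h1 h2
    rcases hs z hz hzl a hp.mem_head with h | h
    · exact hYz z hz hzl h2 a hp.mem_head h
    · exact hXz z hz hzl h1 a hp.mem_head h
  by_cases hne : (U.filter fun z => z ∉ l ∧ Y z).Nonempty
  · rcases hX _ (Finset.filter_subset _ _) hne with ⟨c, hc, hXc⟩ | ⟨u, hu, huC, c, hc, huc⟩
    · rw [Finset.mem_filter] at hc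
      exact hboth c hc.1 hc.2.1 hXc hc.2.2
    · rw [Finset.mem_filter] at hc
      by_cases hul : u ∈ l
      · exact hYz c hc.1 hc.2.1 hc.2.2 u hul huc
      · have hYu : ¬ Y u := fun h => huC (Finset.mem_filter.2 ⟨hu, hul, h⟩)
        have hXu : X u := (hXY u hu).resolve_right hYu
        have hca : A c a := (hs c hc.1 hc.2.1 a hp.mem_head).resolve_left
          (hYz c hc.1 hc.2.1 hc.2.2 a hp.mem_head)
        have h1 := hp.cons hca hc.2.1
        have huc' : u ≠ c := fun h => hYu (h ▸ hc.2.2)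
        have h2 := h1.cons huc (by simp [huc', hul])
        have := hcon (u :: c :: l) ⟨⟨u, b, h2, hXu, hb⟩, fun v hv => ?_⟩
        · simp at this
        · rcases List.mem_cons.1 hv with rfl | hv
          · exact hu
          rcases List.mem_cons.1 hv with rfl | hv
          · exact hc.1
          · exact hlU v hv
  · rw [Finset.not_nonempty_iff_eq_empty] at hne
    have hYn : ∀ z ∈ U, z ∉ l → ¬ Y z := fun z hz hzl hY' => by
      have : z ∈ (U.filter fun z => z ∉ l ∧ Y z) := Finset.mem_filter.2 ⟨hz, hzl, hY'⟩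
      rw [hne] at this
      simp at this
    obtain ⟨z, hz, hzl⟩ := hz
    have hne' : (U.filter fun z => z ∉ l).Nonempty := ⟨z, Finset.mem_filter.2 ⟨hz, hzl⟩⟩
    rcases hY _ (Finset.filter_subset _ _) hne' with ⟨c, hc, hYc⟩ | ⟨c, hc, u, hu, huC, hcu⟩
    · rw [Finset.mem_filter] at hc
      exact hYn c hc.1 hc.2 hYc
    · rw [Finset.mem_filter] at hc
      have hul : u ∈ l := by
        by_contra h
        exact huC (Finset.mem_filter.2 ⟨hu, h⟩)
      exact hXz c hc.1 hc.2 ((hXY c hc.1).resolve_right (hYn c hc.1 hc.2)) u hul hcu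

lemma IsXY.length_le {S : Finset V} {X Y : V → Prop} {l : List V} (h : IsXY A S X Y l) :
    l.length ≤ S.card := by
  classical
  obtain ⟨⟨a, b, hp, -, -⟩, hS⟩ := h
  rw [← List.toFinset_card_of_nodup hp.nodup]
  exact Finset.card_le_card fun v hv => hS v (by simpa using hv)

/-- **Partition lemma.** If every vertex is in `X` or in `Y`, then there is a hamiltonian path
from `X` to `Y` as soon as every vertex can be reached from `X` and reaches `Y`. -/
lemma partition {U : Finset V} (hU : U.Nonempty) (hsc : Semi A U) {X Y : V → Prop}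
    (hXY : ∀ u ∈ U, X u ∨ Y u) (hX : ReachFrom A U X) (hY : ReachTo A U Y) : Ham A U X Y := by
  classical
  -- some path
  have h0 : ∃ l, IsXY A U X Y l := by
    have hx : ∃ x ∈ U, X x := by
      rcases hX U subset_rfl hU with ⟨c, hc, h⟩ | ⟨u, hu, h, -⟩
      · exact ⟨c, hc, h⟩
      · exact absurd hu h
    obtain ⟨x, hx, hXx⟩ := hx
    by_cases hYx : Y x
    · exact ⟨[x], ⟨x, x, Pth.single A x, hXx, hYx⟩, by simpa using hx⟩
    · have hne : (U.filter fun z => ¬ Y z).Nonempty := ⟨x, Finset.mem_filter.2 ⟨hx, hYx⟩⟩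
      rcases hY _ (Finset.filter_subset _ _) hne with ⟨c, hc, hYc⟩ | ⟨c, hc, u, hu, huC, hcu⟩
      · rw [Finset.mem_filter] at hc
        exact absurd hYc hc.2
      · rw [Finset.mem_filter] at hc
        have hYu : Y u := by
          by_contra h
          exact huC (Finset.mem_filter.2 ⟨hu, h⟩)
        have hcu' : c ≠ u := fun h => hc.2 (h ▸ hYu)
        refine ⟨[c, u], ⟨c, u, (Pth.single A u).cons hcu (by simpa using hcu'),
          (hXY c hc.1).resolve_right hc.2, hYu⟩, ?_⟩
        intro v hv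
        rcases List.mem_cons.1 hv with rfl | hv
        · exact hc.1
        · rw [List.mem_singleton.1 hv]
          exact hu
  obtain ⟨l, hl⟩ := h0
  induction hn : U.card - l.length using Nat.strong_induction_on generalizing l with
  | _ n ih =>
    by_cases hz : ∃ z ∈ U, z ∉ l
    · obtain ⟨l', h1, h2⟩ := partition_step hsc hXY hX hY hl hz
      have h3 := h1.length_le
      exact ih _ (by omega) l' h1 rfl
    · push Not at hz
      obtain ⟨⟨a, b, hp, ha, hb⟩, hlU⟩ := hl
      exact ⟨a, b, l, hp, ha, hb, fun v => ⟨hlU v, hz v⟩⟩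

/-! ### Three paths -/

/-- Three disjoint paths from `X` to `Y` inside `S`. -/
structure Sys (A : V → V → Prop) (S : Finset V) (X Y : V → Prop) (P : Fin 3 → List V) :
    Prop where
  path : ∀ i, IsXY A S X Y (P i)
  disj : ∀ i j, i ≠ j → (P i).Disjoint (P j)

/-- Replacing a path by a longer one. -/
lemma Sys.update {S : Finset V} {X Y : V → Prop} {P : Fin 3 → List V} (h : Sys A S X Y P)
    {i : Fin 3} {u : V} (huS : u ∈ S) (hu : ∀ j, u ∉ P j) {l' : List V} {a b : V}
    (h1 : Pth A a b l') (ha : X a) (hb : Y b) (h2 : l' ~ u :: P i) :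
    ∃ P' : Fin 3 → List V, Sys A S X Y P' ∧ ∑ j, (P j).length < ∑ j, (P' j).length := by
  classical
  have hmem : ∀ v, v ∈ l' ↔ v = u ∨ v ∈ P i := fun v => by rw [h2.mem_iff, List.mem_cons]
  refine ⟨Function.update P i l', ⟨fun j => ?_, fun j k hjk => ?_⟩, ?_⟩
  · rcases eq_or_ne j i with rfl | hj
    · rw [Function.update_self]
      refine ⟨⟨a, b, h1, ha, hb⟩, fun v hv => ?_⟩
      rcases (hmem v).1 hv with rfl | hv
      · exact huS
      · exact (h.path _).2 v hv
    · rw [Function.update_of_ne hj]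
      exact h.path j
  · intro v hv hv'
    by_cases hj : j = i
    · subst hj
      rw [Function.update_self] at hv
      rw [Function.update_of_ne (Ne.symm hjk)] at hv'
      rcases (hmem v).1 hv with rfl | hv
      · exact hu k hv'
      · exact h.disj _ _ hjk hv hv'
    · rw [Function.update_of_ne hj] at hv
      by_cases hk : k = i
      · subst hk
        rw [Function.update_self] at hv'
        rcases (hmem v).1 hv' with rfl | hv'
        · exact hu j hv
        · exact h.disj _ _ hjk hv hv'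
      · rw [Function.update_of_ne hk] at hv'
        exact h.disj _ _ hjk hv hv'
  · refine Finset.sum_lt_sum (fun j _ => ?_) ⟨i, Finset.mem_univ i, ?_⟩
    · rcases eq_or_ne j i with rfl | hj
      · rw [Function.update_self, h2.length_eq]
        simp
      · rw [Function.update_of_ne hj]
    · rw [Function.update_self, h2.length_eq]
      simp

lemma Sys.sum_le {S : Finset V} {X Y : V → Prop} {P : Fin 3 → List V} (h : Sys A S X Y P) :
    ∑ j, (P j).length ≤ S.card := by
  classical
  have h1 : ∀ j, (P j).toFinset.card = (P j).length := fun j => by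
    obtain ⟨⟨a, b, hp, -, -⟩, -⟩ := h.path j
    exact List.toFinset_card_of_nodup hp.nodup
  calc ∑ j, (P j).length = ∑ j, (P j).toFinset.card := by simp [h1]
    _ = (Finset.univ.biUnion fun j => (P j).toFinset).card := by
        rw [Finset.card_biUnion]
        intro j _ k _ hjk
        show Disjoint (P j).toFinset (P k).toFinset
        rw [Finset.disjoint_left]
        intro v hv hv'
        exact h.disj j k hjk (by simpa using hv) (by simpa using hv')
    _ ≤ S.card := by
        refine Finset.card_le_card fun v hv => ?_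
        simp only [Finset.mem_biUnion, Finset.mem_univ, true_and, List.mem_toFinset] at hv
        obtain ⟨j, hj⟩ := hv
        exact (h.path j).2 v hj

/-- Merging several disjoint paths of a semicomplete digraph. -/
lemma merge_two {S : Finset V} (hsc : Semi A S) {X Y : V → Prop} {P Q : List V}
    (hP : IsXY A S X Y P) (hQ : IsXY A S X Y Q) (hd : P.Disjoint Q) :
    ∃ R, IsXY A S X Y R ∧ ∀ v, v ∈ R ↔ v ∈ P ∨ v ∈ Q := by
  obtain ⟨⟨a, b, hp, ha, hb⟩, hPS⟩ := hP
  obtain ⟨⟨c, d, hq, hc, hd'⟩, hQS⟩ := hQ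
  obtain ⟨R, e, f, h1, he, hf, h2⟩ := hp.merge hq hd fun u hu v hv =>
    hsc u (hPS u hu) v (hQS v hv) fun h => hd hu (h ▸ hv)
  have hmem : ∀ v, v ∈ R ↔ v ∈ P ∨ v ∈ Q := fun v => by rw [h2.mem_iff, List.mem_append]
  refine ⟨R, ⟨⟨e, f, h1, ?_, ?_⟩, fun v hv => ?_⟩, hmem⟩
  · rcases he with rfl | rfl <;> assumption
  · rcases hf with rfl | rfl <;> assumption
  · rcases (hmem v).1 hv with h | h
    · exact hPS v h
    · exact hQS v h

lemma IsXY.ham {S : Finset V} {X Y : V → Prop} {l : List V} (h : IsXY A S X Y l)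
    (hS : ∀ v ∈ S, v ∈ l) : Ham A S X Y := by
  obtain ⟨⟨a, b, hp, ha, hb⟩, hlS⟩ := h
  exact ⟨a, b, l, hp, ha, hb, fun v => ⟨hlS v, hS v⟩⟩

lemma exists_third (i j : Fin 3) (h : i ≠ j) : ∃ k, k ≠ i ∧ k ≠ j ∧ ∀ m, m = i ∨ m = j ∨ m = k := by
  revert i j
  decide

/-- The step: either there is a hamiltonian path, or the three paths can be made longer. -/
lemma three_step {S : Finset V} (hsc : Semi A S) {X Y : V → Prop}
    (hX : ReachFrom A S X) (hY : ReachTo A S Y) {P : Fin 3 → List V} (hP : Sys A S X Y P)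
    (hcon : ∀ P' : Fin 3 → List V, Sys A S X Y P' →
      ∑ j, (P' j).length ≤ ∑ j, (P j).length) : Ham A S X Y := by
  classical
  choose a b hp ha hb using fun i => (hP.path i).1
  have hPS := fun i => (hP.path i).2
  -- the set of the vertices that are missed
  set U : Finset V := S.filter fun u => ∀ i, u ∉ P i with hUdef
  have hU : ∀ u, u ∈ U ↔ u ∈ S ∧ ∀ i, u ∉ P i := fun u => by rw [hUdef, Finset.mem_filter]
  have hs : ∀ u ∈ U, ∀ i, ∀ w ∈ P i, A w u ∨ A u w := fun u hu i w hw =>
    hsc w (hPS i w hw) u ((hU u).1 hu).1 fun h => ((hU u).1 hu).2 i (h ▸ hw)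
  have hup : ∀ u ∈ U, ∀ i, ∀ l' c d, Pth A c d l' → X c → Y d → ¬ l' ~ u :: P i := by
    intro u hu i l' c d h1 hc hd h2
    obtain ⟨P', h3, h4⟩ := hP.update ((hU u).1 hu).1 ((hU u).1 hu).2 h1 hc hd h2
    exact absurd (hcon P' h3) (by omega)
  have h1 : ∀ u ∈ U, ∀ i, (∃ v ∈ P i, A v u) → A (b i) u := by
    intro u hu i hex
    rcases (hp i).ins_a (((hU u).1 hu).2 i) (hs u hu i) hex with h | ⟨l', h1, h2⟩
    · exact h
    · exact absurd h2 (hup u hu i l' _ _ h1 (ha i) (hb i))
  have h2 : ∀ u ∈ U, ∀ i, (∃ v ∈ P i, A u v) → A u (a i) := by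
    intro u hu i hex
    rcases (hp i).ins_b (((hU u).1 hu).2 i) (hs u hu i) hex with h | ⟨l', h1, h2⟩
    · exact h
    · exact absurd h2 (hup u hu i l' _ _ h1 (ha i) (hb i))
  have h3 : ∀ u ∈ U, ∀ i, X u → ¬ A u (a i) := by
    intro u hu i hXu h
    exact hup u hu i (u :: P i) u (b i) ((hp i).cons h (((hU u).1 hu).2 i)) hXu (hb i)
      (List.Perm.refl _)
  have h4 : ∀ u ∈ U, ∀ i, Y u → ¬ A (b i) u := by
    intro u hu i hYu h
    exact hup u hu i (P i ++ [u]) (a i) u ((hp i).concat h (((hU u).1 hu).2 i)) (ha i) hYu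
      (List.perm_append_comm.trans (by simp))
  -- one of the two statuses holds for each vertex
  have h5 : ∀ u ∈ U, ∀ i, ¬ A (b i) u → A u (a i) := by
    intro u hu i h
    refine h2 u hu i ⟨a i, (hp i).mem_head, (hs u hu i _ (hp i).mem_head).resolve_left ?_⟩
    intro h'
    exact h (h1 u hu i ⟨_, (hp i).mem_head, h'⟩)
  -- joining the parts
  have hconc : ∀ (i j : Fin 3), i ≠ j → ∀ (l : List V) (u v : V), Pth A u v l →
      (∀ w, w ∈ l ↔ w ∈ U) → A (b i) u → A v (a j) → Ham A S X Y := by
    intro i j hij l u v hl hlU hbi haj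
    obtain ⟨k, hki, hkj, hall⟩ := exists_third i j hij
    have hlS : ∀ w ∈ l, w ∈ S := fun w hw => ((hU w).1 ((hlU w).1 hw)).1
    have hlP : ∀ w ∈ l, ∀ i, w ∉ P i := fun w hw => ((hU w).1 ((hlU w).1 hw)).2
    have e1 : Pth A (a i) v (P i ++ l) := (hp i).append hl hbi fun w hw hw' => hlP w hw' i hw
    have e2 : Pth A (a i) (b j) (P i ++ l ++ P j) := e1.append (hp j) haj fun w hw hw' => by
      rcases List.mem_append.1 hw with h | h
      · exact hP.disj i j hij h hw'
      · exact hlP w h j hw'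
    obtain ⟨R, hR, hmem⟩ := merge_two hsc (P := P i ++ l ++ P j) (Q := P k)
      ⟨⟨_, _, e2, ha i, hb j⟩, fun w hw => by
        rcases List.mem_append.1 hw with h | h
        · rcases List.mem_append.1 h with h | h
          · exact hPS i w h
          · exact hlS w h
        · exact hPS j w h⟩ (hP.path k) fun w hw hw' => by
        rcases List.mem_append.1 hw with h | h
        · rcases List.mem_append.1 h with h | h
          · exact hP.disj k i hki hw' h
          · exact hlP w h k hw'
        · exact hP.disj k j hkj hw' h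
    refine hR.ham fun v hv => (hmem v).2 ?_
    by_cases hvU : v ∈ U
    · exact Or.inl (List.mem_append_left _ (List.mem_append_right _ ((hlU v).2 hvU)))
    · have : ∃ m, v ∈ P m := by
        by_contra h
        push Not at h
        exact hvU ((hU v).2 ⟨hv, h⟩)
      obtain ⟨m, hm⟩ := this
      rcases hall m with rfl | rfl | rfl
      · exact Or.inl (List.mem_append_left _ (List.mem_append_left _ hm))
      · exact Or.inl (List.mem_append_right _ hm)
      · exact Or.inr hm
  rcases U.eq_empty_or_nonempty with hUe | hUne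
  · -- nothing is missed
    obtain ⟨R, hR, hmem⟩ := merge_two hsc (hP.path 0) (hP.path 1) (hP.disj 0 1 (by decide))
    obtain ⟨R', hR', hmem'⟩ := merge_two hsc hR (hP.path 2) fun v hv hv' => by
      rcases (hmem v).1 hv with h | h
      · exact hP.disj 0 2 (by decide) h hv'
      · exact hP.disj 1 2 (by decide) h hv'
    refine hR'.ham fun v hv => ?_
    have : ∃ m, v ∈ P m := by
      by_contra h
      push Not at h
      have : v ∈ U := (hU v).2 ⟨hv, h⟩
      rw [hUe] at this
      simp at this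
    obtain ⟨m, hm⟩ := this
    rw [hmem', hmem]
    fin_cases m
    · exact Or.inl (Or.inl hm)
    · exact Or.inl (Or.inr hm)
    · exact Or.inr hm
  -- the missed vertices
  have hpart : Ham A U (fun u => ∃ i, A (b i) u) (fun u => ∃ j, A u (a j)) := by
    refine partition hUne (hsc.mono (Finset.filter_subset _ _)) ?_ ?_ ?_
    · intro u hu
      by_cases h : A (b 0) u
      · exact Or.inl ⟨0, h⟩
      · exact Or.inr ⟨0, h5 u hu 0 h⟩
    · intro C hC hCne
      rcases hX C (hC.trans (Finset.filter_subset _ _)) hCne with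
        ⟨c, hc, hXc⟩ | ⟨u, hu, huC, c, hc, huc⟩
      · left
        refine ⟨c, hc, 0, ?_⟩
        by_contra h
        exact h3 c (hC hc) 0 hXc (h5 c (hC hc) 0 h)
      · by_cases huU : u ∈ U
        · exact Or.inr ⟨u, huU, huC, c, hc, huc⟩
        · left
          have : ∃ m, u ∈ P m := by
            by_contra h
            push Not at h
            exact huU ((hU u).2 ⟨hu, h⟩)
          obtain ⟨m, hm⟩ := this
          exact ⟨c, hc, m, h1 c (hC hc) m ⟨u, hm, huc⟩⟩
    · intro C hC hCne
      rcases hY C (hC.trans (Finset.filter_subset _ _)) hCne with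
        ⟨c, hc, hYc⟩ | ⟨c, hc, u, hu, huC, hcu⟩
      · left
        exact ⟨c, hc, 0, h5 c (hC hc) 0 (h4 c (hC hc) 0 hYc)⟩
      · by_cases huU : u ∈ U
        · exact Or.inr ⟨c, hc, u, huU, huC, hcu⟩
        · left
          have : ∃ m, u ∈ P m := by
            by_contra h
            push Not at h
            exact huU ((hU u).2 ⟨hu, h⟩)
          obtain ⟨m, hm⟩ := this
          exact ⟨c, hc, m, h2 c (hC hc) m ⟨u, hm, hcu⟩⟩
  obtain ⟨u₁, u₂, L, hL, ⟨i, hi⟩, ⟨j, hj⟩, hLU⟩ := hpart
  rcases eq_or_ne i j with rfl | hij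
  swap
  · exact hconc i j hij L u₁ u₂ hL hLU hi hj
  by_cases hgood : ∃ i j, i ≠ j ∧ A (b i) u₁ ∧ A u₂ (a j)
  · obtain ⟨i, j, hij, h6, h7⟩ := hgood
    exact hconc i j hij L u₁ u₂ hL hLU h6 h7
  push Not at hgood
  obtain ⟨j, hji⟩ : ∃ j : Fin 3, j ≠ i := by
    revert i
    intro i
    fin_cases i
    · exact fun _ _ => ⟨1, by decide⟩
    · exact fun _ _ => ⟨0, by decide⟩
    · exact fun _ _ => ⟨0, by decide⟩
  obtain ⟨k, hki, hkj, hall⟩ := exists_third i j hji.symm
  have hnj : ¬ A (b j) u₁ := fun h => hgood j i hji h hj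
  have hnk : ¬ A (b k) u₁ := fun h => hgood k i hki h hj
  have hmj : ¬ A u₂ (a j) := hgood i j hji.symm hi
  have hu₂ : u₂ ∈ U := (hLU u₂).1 hL.mem_last
  obtain ⟨l₁, l₂, w, v, hl, e1, e2, hw, hv, hwv⟩ := hL.cut
    (fun v => ¬ A (b j) v ∧ ¬ A (b k) v) ⟨hnj, hnk⟩ (fun h => hmj (h5 u₂ hu₂ j h.1))
  have hwU : w ∈ U := (hLU w).1 (by rw [hl]; exact List.mem_append_left _ e1.mem_last)
  have hl1U : ∀ x ∈ l₁, x ∈ U := fun x hx => (hLU x).1 (by rw [hl]; exact List.mem_append_left _ hx)
  have hl2U : ∀ x ∈ l₂, x ∈ U := fun x hx => (hLU x).1 (by rw [hl]; exact List.mem_append_right _ hx)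
  have hl12 : l₁.Disjoint l₂ := by
    have := hL.nodup
    rw [hl, List.nodup_append] at this
    intro x hx hx'
    exact this.2.2 x hx x hx' rfl
  -- the rotated path
  have hfin : ∀ (j k : Fin 3), j ≠ i → k ≠ i → k ≠ j → (∀ m, m = i ∨ m = j ∨ m = k) →
      A (b j) v → A w (a k) → Ham A S X Y := by
    intro j k hji hki hkj hall hjv hwk
    have f1 : Pth A (a j) u₂ (P j ++ l₂) := (hp j).append e2 hjv fun x hx hx' =>
      ((hU x).1 (hl2U x hx')).2 j hx
    have f2 : Pth A (a j) (b i) (P j ++ l₂ ++ P i) := f1.append (hp i) hj fun x hx hx' => by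
      rcases List.mem_append.1 hx with h | h
      · exact hP.disj j i hji h hx'
      · exact ((hU x).1 (hl2U x h)).2 i hx'
    have f3 : Pth A (a j) w (P j ++ l₂ ++ P i ++ l₁) := f2.append e1 hi fun x hx hx' => by
      rcases List.mem_append.1 hx with h | h
      · rcases List.mem_append.1 h with h | h
        · exact ((hU x).1 (hl1U x hx')).2 j h
        · exact hl12 hx' h
      · exact ((hU x).1 (hl1U x hx')).2 i h
    have f4 : Pth A (a j) (b k) (P j ++ l₂ ++ P i ++ l₁ ++ P k) :=
      f3.append (hp k) hwk fun x hx hx' => by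
      rcases List.mem_append.1 hx with h | h
      · rcases List.mem_append.1 h with h | h
        · rcases List.mem_append.1 h with h | h
          · exact hP.disj j k hkj.symm h hx'
          · exact ((hU x).1 (hl2U x h)).2 k hx'
        · exact hP.disj i k hki.symm h hx'
      · exact ((hU x).1 (hl1U x h)).2 k hx'
    refine ⟨a j, b k, _, f4, ha j, hb k, fun x => ?_⟩
    simp only [List.mem_append]
    constructor
    · rintro ((((h | h) | h) | h) | h)
      · exact hPS j x h
      · exact ((hU x).1 (hl2U x h)).1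
      · exact hPS i x h
      · exact ((hU x).1 (hl1U x h)).1
      · exact hPS k x h
    · intro hx
      by_cases hxU : x ∈ U
      · have := (hLU x).2 hxU
        rw [hl, List.mem_append] at this
        tauto
      · have : ∃ m, x ∈ P m := by
          by_contra h
          push Not at h
          exact hxU ((hU x).2 ⟨hx, h⟩)
        obtain ⟨m, hm⟩ := this
        rcases hall m with rfl | rfl | rfl <;> tauto
  by_cases hvj : A (b j) v
  · exact hfin j k hji hki hkj hall hvj (h5 w hwU k hw.2)
  · have hvk : A (b k) v := by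
      by_contra h
      exact hv ⟨hvj, h⟩
    exact hfin k j hki hji hkj.symm (fun m => by rcases hall m with h | h | h <;> tauto) hvk
      (h5 w hwU j hw.1)

/-- **Three disjoint paths suffice.** Let `A` be a semicomplete digraph on a finite set `S` all
of whose vertices can be reached from `X` and reach `Y`. If there are three disjoint paths
from `X` to `Y`, then there is a hamiltonian path from `X` to `Y`. -/
theorem ham_of_three {S : Finset V} (hsc : Semi A S) {X Y : V → Prop}
    (hX : ReachFrom A S X) (hY : ReachTo A S Y) {P : Fin 3 → List V} (hP : Sys A S X Y P) :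
    Ham A S X Y := by
  induction hn : S.card - ∑ j, (P j).length using Nat.strong_induction_on generalizing P with
  | _ n ih =>
    by_cases h : ∃ P' : Fin 3 → List V, Sys A S X Y P' ∧ ∑ j, (P j).length < ∑ j, (P' j).length
    · obtain ⟨P', h1, h2⟩ := h
      have h3 := h1.sum_le
      exact ih _ (by omega) h1 rfl
    · push Not at h
      exact three_step hsc hX hY hP h

end Pool.Agent.Lib53.HamBase
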